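import Pool.Agent.H85.Zar.M1
import Pool.Agent.H85.Zar.CombOpen

set_option linter.style.longLine false

/-! Zariski's strata of codimension at most two are disjoint from all other strata. -/

namespace Pool.Agent.Results.MP_c1f17f_ag.CodimTwo

open MvPolynomial H9.Zar

universe v

/-- Let `k` be algebraically closed of characteristic `0` and of infinite transcendence degree
over `ℚ` (for example the field of complex numbers), let `V : F = 0`, `h ≠ 0` be a hypersurface,
of any dimension `r`, in the open set `h ≠ 0` of affine `(r+1)`-space, and let `E_0, ..., E_N` be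
Zariski's stratification of `V`.  Then every stratum `E_a` of codimension at most `2` in `V`
(that is, at most `3` in affine space) is disjoint from every other stratum. -/
theorem result {k : Type v} [Field k] [IsAlgClosed k] [CharZero k]
    (hk : Cardinal.aleph0 ≤ Algebra.trdeg ℚ k) (r : ℕ)
    (F h : MvPolynomial (Fin (r + 1)) k) (N : ℕ) (E : Fin (N + 1) → Set (Fin (r + 1) → k))
    (hE : IsStratOn F (openSet h) N E) (a b : Fin (N + 1)) (hab : a ≠ b)
    (ha : a ≠ 0 → (vanishingIdeal k (E a)).height ≤ 3) :
    Disjoint (E a) (E b) := by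
  refine (H85.Zar.eq_of_height_open F h (EquisingAt F) ?_ ?_ N E hE.zero hE.inj hE.irr hE.char
    hE.comp).1 a b hab ha
  · intro Q p hp hF hQ hEq q hq hQq
    exact transfer F Q HM_iff_words p hF hQ
      (fun a ha hIa hfa q hq m hm => star (r + 1) k (germ Q F) (p.map (germ Q)) hEq.equising a ha
        hIa hfa q hq m hm) 2 q hq hQq
  · intro Q p hp hFp hQ hQh hEq N hN c hc hNc hQc hbad
    exact H85.Zar.bad_both hk F Q p hFp hQ hEq N hN c hNc hQc h hQh hbad

end Pool.Agent.Results.MP_c1f17f_ag.CodimTwo
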