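import Pool.Agent.H9.Zar.Star
import Pool.Agent.H9.Zar.Strata

set_option linter.style.longLine false

/-!
Equisingularity by generic projections: the strata whose closures are components of the singular
locus.
-/

namespace Pool.Agent.Results.MP_c1f17f_ag.ComponentStrata

open H9.Zar MvPolynomial

universe u

/-- `V : F = 0` in affine `(r+1)`-space over an algebraically closed field of characteristic `0`.
If `V` is equisingular at `Q` along `M = V(p)`, then `M` lies in every irreducible component
through `Q` of the locus of points of multiplicity `≥ m`, for every `m` (for `m = 2`: in every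
component through `Q` of the singular locus `S`).  Hence a stratum whose closure is an irreducible
component of `S` is disjoint from every other stratum. -/
theorem result {k : Type u} [Field k] [IsAlgClosed k] [CharZero k] {r : ℕ}
    (F : MvPolynomial (Fin (r + 1)) k) :
    (∀ (Q : Fin (r + 1) → k) (p : Ideal (MvPolynomial (Fin (r + 1)) k)),
      p.IsPrime → F ∈ p → Q ∈ zeroLocus k p → EquisingAt F Q p →
      ∀ m : ℕ, ContainedInComps Q p (multIdeal F m)) ∧
    (∀ (N : ℕ) (E : Fin (N + 1) → Set (Fin (r + 1) → k)), IsStrat F N E →
      ∀ a b : Fin (N + 1), a ≠ b → a ≠ 0 → IsComp (singPts F) (zcl (E a)) →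
      Disjoint (E a) (E b)) := by
  have hA : ∀ (Q : Fin (r + 1) → k) (p : Ideal (MvPolynomial (Fin (r + 1)) k)), p.IsPrime →
      F ∈ p → Q ∈ zeroLocus k p → EquisingAt F Q p →
      ∀ m : ℕ, ContainedInComps Q p (multIdeal F m) := by
    intro Q p hp hF hQ hE m q hq hQq
    exact transfer F Q HM_iff_words p hF hQ (fun a ha hpa hfa q' hq' m' hm' =>
      star (r + 1) k (germ Q F) (p.map (germ Q)) hE.equising a ha hpa hfa q' hq' m' hm') m q hq hQq
  refine ⟨hA, fun N E hE a b hab ha0 ha => ?_⟩
  exact strata_disjoint F (fun Q p hp hF hQ hEq => hA Q p hp hF hQ hEq 2) N E hE a b hab ha ha0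

end Pool.Agent.Results.MP_c1f17f_ag.ComponentStrata
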