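import Pool.Agent.ZX.TableZ

set_option linter.style.longLine false

/-! Zariski's strata are not disjoint in general. -/

namespace Pool.Agent.Results.MP_c1f17f_ag.StrataMeet

open MvPolynomial H9.Zar H51.Zar

universe v

/-- Over every algebraically closed field `k` of characteristic `0` there is a hypersurface
`V : F = 0`, `h ≠ 0` (`F` squarefree) of dimension `6` in an open set of affine `7`-space, with a
point `Q`, for which Zariski's strata are not disjoint: a stratification `E_0, ..., E_N` of `V`
with all the properties of the problem exists, and in every such stratification `Q` lies in two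
distinct strata. -/
theorem result (k : Type v) [Field k] [IsAlgClosed k] [CharZero k] :
    ∃ (F h : MvPolynomial (Fin (6 + 1)) k) (Q : Fin (6 + 1) → k), Squarefree F ∧
      (∃ (N : ℕ) (E : Fin (N + 1) → Set (Fin (6 + 1) → k)), IsZStrat F (openSet h) N E) ∧
      ∀ (N : ℕ) (E : Fin (N + 1) → Set (Fin (6 + 1) → k)), IsZStrat F (openSet h) N E →
        ∃ a b : Fin (N + 1), a ≠ b ∧ Q ∈ E a ∧ Q ∈ E b :=
  ⟨ZX.Fpol k, ZX.hpol k, 0, ZX.squarefree_Fpol k, (ZX.main k).1, (ZX.main k).2⟩

end Pool.Agent.Results.MP_c1f17f_ag.StrataMeet
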